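import Pool.Agent.X171.WB.Up

/-!
# MP_a61181_an: the dichotomy for the weak Banach-Saks quantity fails for `ξ = 1`
-/

namespace Pool.Agent.Results.MP_a61181_an.NoDichotomy

open Pool.Agent.X171.WB

/-- **Q1, answered negatively.** There is a real Banach space `X` such that, for `ξ = 1`,
`1/4 ≤ wbs_ξ (B_X) ≤ 1`; in particular `wbs_ξ (B_X)` is neither `0` nor `2`. -/
theorem result : ∃ (X : Type) (_ : NormedAddCommGroup X) (_ : NormedSpace ℝ X)
    (_ : CompleteSpace X),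
    (1 / 4 ≤ wbs 1 (Metric.closedBall (0 : X) 1) ∧ wbs 1 (Metric.closedBall (0 : X) 1) ≤ 1) ∧
      ¬ (wbs 1 (Metric.closedBall (0 : X) 1) = 0 ∨ wbs 1 (Metric.closedBall (0 : X) 1) = 2) := by
  have hup : ∀ r ∈ {r | ∃ x : ℕ → X, (∀ n, x n ∈ Metric.closedBall (0 : X) 1) ∧ WeakConv x ∧
      r = wcca 1 x}, r ≤ 1 := by
    rintro r ⟨x, hx, hw, rfl⟩
    exact upper x (fun n => mem_closedBall_zero_iff.mp (hx n)) hw
  have h2 : wbs 1 (Metric.closedBall (0 : X) 1) ≤ 1 := by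
    unfold wbs
    exact Real.sSup_le hup zero_le_one
  have h1 : 1 / 4 ≤ wbs 1 (Metric.closedBall (0 : X) 1) := by
    have h3 : 1 / 4 ≤ wcca 1 e := by
      unfold wcca
      haveI : Nonempty {m : ℕ → ℕ // StrictMono m ∧ 0 < m 0} :=
        ⟨⟨fun n => n + 1, strictMono_nat_of_lt_succ (fun n => Nat.lt_succ_self _), Nat.one_pos⟩⟩
      exact le_ciInf (fun m => lower_e m.2.1 m.2.2)
    refine h3.trans ?_
    unfold wbs
    exact le_csSup ⟨1, hup⟩ ⟨e, fun n => mem_closedBall_zero_iff.mpr (norm_e_le n),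
      ⟨0, fun φ => by rw [map_zero]; exact e_null φ⟩, rfl⟩
  refine ⟨X, inferInstance, inferInstance, inferInstance, ⟨h1, h2⟩, ?_⟩
  rintro (h | h)
  · rw [h] at h1
    norm_num at h1
  · rw [h] at h2
    norm_num at h2

end Pool.Agent.Results.MP_a61181_an.NoDichotomy
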